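import Mathlib
import Pool.Agent.Lib.MP_937f58_an.Main

set_option autoImplicit false

namespace Pool.Agent.Results.MP_937f58_an.NotEmbedding

/-- An independent sequence of real functions. -/
def Independent {X : Type} (f : ℕ → X → ℝ) : Prop :=
  ∃ a b : ℝ, a < b ∧ ∀ P M : Finset ℕ, Disjoint P M →
    ∃ x : X, (∀ n ∈ P, f n x < a) ∧ (∀ n ∈ M, b < f n x)

/-- A tame action: no continuous function has an independent sequence of translates. -/
def TameSystem (G X : Type) [Group G] [TopologicalSpace X] [MulAction G X] : Prop :=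
  ∀ F : X → ℝ, Continuous F → ∀ s : ℕ → G, ¬ Independent (fun n x => F (s n • x))

/-- A tame function on `G`: it comes from a tame compact Hausdorff `G`-system. -/
def TameFun (G : Type) [Group G] [TopologicalSpace G] (φ : G → ℝ) : Prop :=
  ∃ (X : Type) (_ : TopologicalSpace X) (_ : CompactSpace X) (_ : T2Space X) (_ : MulAction G X)
    (_ : ContinuousSMul G X) (x₀ : X) (F : X → ℝ),
    TameSystem G X ∧ Continuous F ∧ ∀ g, φ g = F (g • x₀)

theorem result : ∃ (G : Type) (_ : CommGroup G) (_ : TopologicalSpace G)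
    (_ : IsTopologicalGroup G) (_ : PolishSpace G),
    ¬ Topology.IsInducing (fun (g : G) (φ : {φ : G → ℝ // TameFun G φ}) => φ.1 g) := by
  refine ⟨Multiplicative C(OnePoint ℕ, ℝ), inferInstance, inferInstance, inferInstance,
    Pool.Agent.Lib.MP_937f58_an.polish, fun h1 => ?_⟩
  refine Pool.Agent.Lib.MP_937f58_an.not_inducing (E := C(OnePoint ℕ, ℝ))
    (T := {φ : Multiplicative C(OnePoint ℕ, ℝ) → ℝ // TameFun _ φ})
    (fun f x => f.1 (Multiplicative.ofAdd x)) ?_ ?_
    Pool.Agent.Lib.MP_937f58_an.exists_sphere h1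
  · rintro ⟨φ, X, _, _, _, _, _, x₀, F, -, hF, hφ⟩
    obtain ⟨C, hC⟩ := (isCompact_range hF).isBounded.exists_norm_le
    exact ⟨C, fun x => by
      show |φ _| ≤ C
      rw [hφ]; exact hC _ ⟨_, rfl⟩⟩
  · rintro ⟨φ, X, _, _, _, _, _, x₀, F, hT, hF, hφ⟩ ⟨s, a, b, hab, hs⟩
    refine hT F hF (fun n => Multiplicative.ofAdd (s n)) ⟨a, b, hab, fun P M hPM => ?_⟩
    obtain ⟨x, h1, h2⟩ := hs P M hPM
    refine ⟨Multiplicative.ofAdd x • x₀, fun n hn => ?_, fun n hn => ?_⟩
    · have := h1 n hn
      simp only [hφ, ofAdd_add, mul_smul] at this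
      exact this
    · have := h2 n hn
      simp only [hφ, ofAdd_add, mul_smul] at this
      exact this

end Pool.Agent.Results.MP_937f58_an.NotEmbedding
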