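import Mathlib
import Pool.Agent.Lib.MP_937f58_an.Trivial

set_option autoImplicit false

namespace Pool.Agent.Results.MP_937f58_an.TameTrivial

/-- An independent sequence of real functions. -/
def Independent {X : Type} (f : ℕ → X → ℝ) : Prop :=
  ∃ a b : ℝ, a < b ∧ ∀ P M : Finset ℕ, Disjoint P M →
    ∃ x : X, (∀ n ∈ P, f n x < a) ∧ (∀ n ∈ M, b < f n x)

/-- A tame action: no continuous function has an independent sequence of translates. -/
def TameSystem (G X : Type) [Group G] [TopologicalSpace X] [MulAction G X] : Prop :=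
  ∀ F : X → ℝ, Continuous F → ∀ s : ℕ → G, ¬ Independent (fun n x => F (s n • x))

/-- A tame function on `G`: it comes from a tame compact Hausdorff `G`-system. -/
def TameFun (G : Type) [Group G] [TopologicalSpace G] (φ : G → ℝ) : Prop :=
  ∃ (X : Type) (_ : TopologicalSpace X) (_ : CompactSpace X) (_ : T2Space X) (_ : MulAction G X)
    (_ : ContinuousSMul G X) (x₀ : X) (F : X → ℝ),
    TameSystem G X ∧ Continuous F ∧ ∀ g, φ g = F (g • x₀)

open Pool.Agent.Lib.MP_937f58_an in
theorem result : ∃ (G : Type) (_ : Group G) (_ : TopologicalSpace G)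
    (_ : IsTopologicalGroup G) (_ : PolishSpace G),
    Nontrivial G ∧ ∀ φ : G → ℝ, TameFun G φ → ∀ g : G, φ g = φ 1 := by
  have main : ∀ (X : Type) [TopologicalSpace X] [CompactSpace X] [T2Space X] [MulAction Wit X]
      [ContinuousSMul Wit X], TameSystem Wit X → ∀ (g : Wit) (x : X), g • x = x := by
    intro X _ _ _ _ _ hT g x
    by_contra hne
    obtain ⟨F, hF0, hF1, -⟩ := exists_continuous_zero_one_of_isClosed
      (isClosed_singleton (x := g • x)) (isClosed_singleton (x := x))
      (Set.disjoint_singleton.2 hne)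
    obtain ⟨C, hC⟩ := (isCompact_range F.continuous).isBounded.exists_norm_le
    have := Wit.const (fun h => F (h • x)) C (fun h => hC _ ⟨_, rfl⟩) (by
      intro ε hε
      have h1 : ∀ᶠ v in nhds (1 : Wit), ∀ y ∈ (Set.univ : Set X), |F (v • y) - F y| < ε := by
        refine isCompact_univ.eventually_forall_of_forall_eventually fun y _ => ?_
        have hc : Continuous fun z : Wit × X => |F (z.1 • z.2) - F z.2| :=
          ((F.continuous.comp continuous_smul).sub (F.continuous.comp continuous_snd)).abs
        exact hc.continuousAt.eventually_lt continuousAt_const (by simpa using hε)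
      refine ⟨_, h1, fun v hv h => ?_⟩
      rw [mul_smul]
      exact hv _ (Set.mem_univ _)) (by
      rintro ⟨s, a, b, hab, hs⟩
      refine hT F F.continuous s ⟨a, b, hab, fun P M hPM => ?_⟩
      obtain ⟨h, h1, h2⟩ := hs P M hPM
      exact ⟨h • x, fun n hn => by simpa only [mul_smul] using h1 n hn,
        fun n hn => by simpa only [mul_smul] using h2 n hn⟩) g
    rw [one_smul, hF0 (Set.mem_singleton _), hF1 (Set.mem_singleton _)] at this
    simp at this
  refine ⟨Wit, inferInstance, inferInstance, inferInstance, Wit.polish, Wit.nontrivial, ?_⟩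
  rintro φ ⟨X, _, _, _, _, _, x₀, F, hT, -, hφ⟩ g
  rw [hφ, hφ, main X hT g, main X hT 1]

end Pool.Agent.Results.MP_937f58_an.TameTrivial
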